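import Pool.Agent.helper63.TI.SpecA

/-!
# Project ti (MP_3703a7_ag): row DES (descent of operators)
-/

set_option autoImplicit false

namespace Pool.Agent.TI

open Polynomial NumberField Pool.Agent.GJ Pool.Agent.TK Pool.Agent.TQ Pool.Agent.TFQ Pool.Agent.TD Pool.Agent.AQ
open Pool.Agent.FJ (VT Om chiO IsFrobO rf rs)
open scoped TensorProduct

noncomputable section

theorem DES_two (k Ω V : Type) [Field k] [Field Ω] [Algebra k Ω] [AddCommGroup V] [Module k V]
    [FiniteDimensional k V] (m : ℕ) (c : Fin m → Ω) (w : Fin m → V) (hc : LinearIndependent k c)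
    (h : ∑ j, c j ⊗ₜ[k] w j = 0) (j : Fin m) : w j = 0 := by
  let b := Module.finBasis k V
  refine b.ext_elem (fun s => ?_)
  have h1 := congrArg (fun x => (TensorProduct.rid k Ω) (LinearMap.lTensor Ω (b.coord s) x)) h
  simp only [map_sum, LinearMap.lTensor_tmul, TensorProduct.rid_tmul, map_zero] at h1
  have h2 := (Fintype.linearIndependent_iff.1 hc) (fun j => b.coord s (w j)) h1 j
  rw [map_zero]
  exact h2

theorem DES_one (k Ω V : Type) [Field k] [Field Ω] [Algebra k Ω] [AddCommGroup V] [Module k V]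
    [FiniteDimensional k V] (A : Ω ⊗[k] V →ₗ[Ω] Ω ⊗[k] V) :
    ∃ (m : ℕ) (c : Fin m → Ω) (A' : Fin m → (V →ₗ[k] V)), LinearIndependent k c ∧
      A = ∑ j, c j • LinearMap.baseChange Ω (A' j) := by
  classical
  let b := Module.finBasis k V
  let B := b.baseChange Ω
  let a : Fin (Module.finrank k V) × Fin (Module.finrank k V) → Ω := fun p => B.repr (A (B p.2)) p.1
  let S : Submodule k Ω := Submodule.span k (Set.range a)
  have : FiniteDimensional k S := FiniteDimensional.span_of_finite k (Set.finite_range a)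
  let c := Module.finBasis k S
  have ha : ∀ p, a p ∈ S := fun p => Submodule.subset_span ⟨p, rfl⟩
  refine ⟨Module.finrank k S, fun j => (c j : Ω), fun j =>
    Matrix.toLin b b (Matrix.of fun s t => c.repr ⟨a (s, t), ha _⟩ j), ?_, ?_⟩
  · exact c.linearIndependent.map' S.subtype (Submodule.ker_subtype S)
  · refine B.ext (fun t => ?_)
    have hB : ∀ s, B s = 1 ⊗ₜ[k] b s := fun s => b.baseChange_apply Ω s
    have h1 : A (B t) = ∑ s, a (s, t) • B s := (B.sum_repr (A (B t))).symm
    have h2 : ∀ s, a (s, t) = ∑ j, c.repr ⟨a (s, t), ha _⟩ j • (c j : Ω) := by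
      intro s
      have h := congrArg (fun x : S => (x : Ω)) (c.sum_repr ⟨a (s, t), ha _⟩)
      simp only [Submodule.coe_sum, Submodule.coe_smul] at h
      exact h.symm
    rw [h1, LinearMap.sum_apply]
    have h3 : ∀ j, ((c j : Ω) • LinearMap.baseChange Ω
        (Matrix.toLin b b (Matrix.of fun s t => c.repr ⟨a (s, t), ha _⟩ j))) (B t) =
        ∑ s, (c.repr ⟨a (s, t), ha _⟩ j • (c j : Ω)) • B s := by
      intro j
      rw [LinearMap.smul_apply, hB, LinearMap.baseChange_tmul, Matrix.toLin_self,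
        TensorProduct.tmul_sum, Finset.smul_sum]
      refine Finset.sum_congr rfl (fun s _ => ?_)
      rw [hB, Matrix.of_apply, TensorProduct.tmul_smul, smul_comm, smul_assoc]
    rw [Finset.sum_congr rfl (fun j _ => h3 j), Finset.sum_comm]
    refine Finset.sum_congr rfl (fun s _ => ?_)
    rw [← Finset.sum_smul, ← h2]

theorem DES : DES_stmt := fun k Ω V _ _ _ _ _ _ =>
  ⟨fun A => DES_one k Ω V A, fun m c w hc h j => DES_two k Ω V m c w hc h j⟩

end

end Pool.Agent.TI
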